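import Pool.Agent.Helper49.KR.St

/-!
Project KR (MP_c973ff_an), module CNJ.
-/

set_option autoImplicit false

namespace Pool.Agent.Helper91.KR

open Pool.Agent.Helper49.KX Pool.Agent.Helper49.KR

variable {X Y : Type} [TopologicalSpace X] [TopologicalSpace Y]

/-- composition with `φ⁻¹` -/
noncomputable def Tc (φ : X ≃ₜ Y) : C(X, ℂ) →+ C(Y, ℂ) where
  toFun := fun f => f.comp ⟨φ.symm, φ.symm.continuous⟩
  map_zero' := by ext; rfl
  map_add' := by intro a b; ext; rfl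

/-- composition with `φ⁻¹` on finite sums -/
noncomputable def Tf (φ : X ≃ₜ Y) : FS X →+ FS Y := Finsupp.mapRange.addMonoidHom (Tc φ)

/-- conjugation with `φ` -/
def cj (φ : X ≃ₜ Y) : (X ≃ₜ X) →* (Y ≃ₜ Y) where
  toFun := fun h => (φ.symm.trans h).trans φ
  map_one' := by
    ext y
    exact φ.apply_symm_apply y
  map_mul' := by
    intro a b
    ext y
    change φ (a (b (φ.symm y))) = φ (a (φ.symm (φ (b (φ.symm y)))))
    rw [φ.symm_apply_apply]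

theorem cj_zpow (φ : X ≃ₜ Y) (h : X ≃ₜ X) (n : ℤ) (y : Y) :
    (((φ.symm.trans h).trans φ) ^ n : Y ≃ₜ Y) y = φ ((h ^ n : X ≃ₜ X) (φ.symm y)) := by
  have h1 : cj φ (h ^ n) = (cj φ h) ^ n := map_zpow (cj φ) h n
  have h2 : ((cj φ h) ^ n : Y ≃ₜ Y) y = cj φ (h ^ n) y := by rw [h1]
  exact h2

theorem Tc_mul (φ : X ≃ₜ Y) (h : X ≃ₜ X) (m : ℤ) (f f' : C(X, ℂ)) :
    Tc φ (f * cmp h m f') = Tc φ f * cmp ((φ.symm.trans h).trans φ) m (Tc φ f') := by
  ext y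
  change f (φ.symm y) * f' ((h ^ m : X ≃ₜ X) (φ.symm y)) =
    f (φ.symm y) * f' (φ.symm ((((φ.symm.trans h).trans φ) ^ m : Y ≃ₜ Y) y))
  rw [cj_zpow, φ.symm_apply_apply]

theorem Tf_single (φ : X ≃ₜ Y) (n : ℤ) (f : C(X, ℂ)) :
    Tf φ (Finsupp.single n f) = Finsupp.single n (Tc φ f) := by
  simp [Tf]

theorem Tf_un (φ : X ≃ₜ Y) : Tf φ (un : FS X) = un := by
  unfold un
  rw [Tf_single]
  congr 1

theorem Tf_tw (φ : X ≃ₜ Y) (h : X ≃ₜ X) (g g' : FS X) :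
    Tf φ (tw h g g') = tw ((φ.symm.trans h).trans φ) (Tf φ g) (Tf φ g') := by
  unfold tw
  rw [map_finsuppSum]
  have h1 : (Tf φ g).sum (fun m f => (Tf φ g').sum fun n f' =>
      Finsupp.single (m + n) (f * cmp ((φ.symm.trans h).trans φ) (-m) f')) =
      g.sum (fun m f => (Tf φ g').sum fun n f' =>
      Finsupp.single (m + n) (Tc φ f * cmp ((φ.symm.trans h).trans φ) (-m) f')) := by
    refine Finsupp.sum_mapRange_index (hf := map_zero (Tc φ)) ?_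
    intro m
    simp
  rw [h1]
  refine Finsupp.sum_congr fun m _ => ?_
  rw [map_finsuppSum]
  have h2 : (Tf φ g').sum (fun n f' =>
      Finsupp.single (m + n) (Tc φ (g m) * cmp ((φ.symm.trans h).trans φ) (-m) f')) =
      g'.sum (fun n f' => Finsupp.single (m + n)
        (Tc φ (g m) * cmp ((φ.symm.trans h).trans φ) (-m) (Tc φ f'))) := by
    refine Finsupp.sum_mapRange_index (hf := map_zero (Tc φ)) ?_
    intro n
    have : cmp ((φ.symm.trans h).trans φ) (-m) (0 : C(Y, ℂ)) = 0 := by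
      ext y
      rfl
    rw [this, mul_zero, Finsupp.single_zero]
  rw [h2]
  refine Finsupp.sum_congr fun n _ => ?_
  rw [Tf_single, Tc_mul]

theorem Tf_surj (φ : X ≃ₜ Y) (g : FS Y) : ∃ g' : FS X, Tf φ g' = g := by
  refine ⟨Tf φ.symm g, ?_⟩
  ext n y
  change g n (φ.symm.symm (φ.symm y)) = g n y
  congr 1
  exact φ.apply_symm_apply y

theorem hCNJ : StCnj := by
  intro X Y _ _ φ h H g
  obtain ⟨g', rfl⟩ := Tf_surj φ g
  obtain ⟨y, z, h1, h2⟩ := H g'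
  refine ⟨Tf φ y, Tf φ z, ?_, ?_⟩
  · rw [← Tf_tw, ← Tf_tw, h1]
  · have h3 : ∀ a b : FS X, Tf φ (a - b) = Tf φ a - Tf φ b := fun a b => map_sub (Tf φ) a b
    rw [← Tf_tw, ← Tf_un φ, ← h3, ← h3, ← Tf_tw, h2]

end Pool.Agent.Helper91.KR
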